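import Pool.Agent.H.MP_208a82_co.B

set_option autoImplicit false

namespace Pool.Agent.Results.MP_208a82_co.Iff

open Pool.Agent.H.MP_208a82_co MeasureTheory

theorem result (d : ℕ) (hd : 2 ≤ d) (I : Set ℝ) (h0 : I ⊆ Set.Ioi 0) (hI : I.OrdConnected)
    (hn : I.Nontrivial) :
    (∀ P Q : Set (EuclideanSpace ℝ (Fin d)), Node volume I P → Node volume I Q →
      Relation.ReflTransGen (Move volume I) P Q) ↔ ¬ ∃ M, IsGreatest I M :=
  main (by simpa using hd) h0 hI hn

end Pool.Agent.Results.MP_208a82_co.Iff
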